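import Pool.Agent.Helper64.HG.Defs

/-! Statements of all modules for MP_866009_co (Helly circle graphs of girth at least five). -/

set_option autoImplicit false

namespace Pool.Agent.Helper64.HG

/-! ### Lists -/

/-- chain: consecutive elements are adjacent -/
def Ch {V : Type} (G : SimpleGraph V) (P : List V) : Prop :=
  ∀ (i : ℕ) (h : i + 1 < P.length), G.Adj P[i] P[i + 1]

def ST_REV : Prop := ∀ (V : Type) (G : SimpleGraph V) (u w : V) (A : List V),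
  Link G u A w → Link G w A.reverse u

def ST_CAT : Prop := ∀ (V : Type) (G : SimpleGraph V) (u x w : V) (A B : List V),
  Link G u A x → Link G x B w → Anti G A B → Anti G [u] B → Anti G [w] A →
  u ≠ x → ¬ G.Adj u x → w ≠ x → ¬ G.Adj w x → Link G u (A ++ x :: B) w

def ST_CNS : Prop := ∀ (V : Type) (G : SimpleGraph V) (u x w : V) (B : List V),
  G.Adj u x → Link G x B w → Anti G [u] B → w ≠ x → ¬ G.Adj w x → Link G u (x :: B) w

def ST_SNC : Prop := ∀ (V : Type) (G : SimpleGraph V) (u x w : V) (A : List V),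
  Link G u A x → G.Adj x w → Anti G [w] A → u ≠ x → ¬ G.Adj u x → Link G u (A ++ [x]) w

def ST_SPL : Prop := ∀ (V : Type) (G : SimpleGraph V) (u x w : V) (A B : List V),
  Link G u (A ++ x :: B) w →
    (A = [] → G.Adj u x) ∧ (A ≠ [] → Link G u A x ∧ ¬ G.Adj u x) ∧
    (B = [] → G.Adj x w) ∧ (B ≠ [] → Link G x B w ∧ ¬ G.Adj x w) ∧
    Anti G A B ∧ Anti G [u] B ∧ Anti G [w] A ∧ u ≠ x ∧ w ≠ x

def ST_CY2 : Prop := ∀ (V : Type) (G : SimpleGraph V) (u w : V) (A B : List V),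
  Link G u A w → Link G u B w → Anti G A B → u ≠ w → ¬ G.Adj u w →
    IC G (u :: (A ++ w :: B.reverse))

def ST_CY1 : Prop := ∀ (V : Type) (G : SimpleGraph V) (u w : V) (A : List V),
  Link G u A w → G.Adj u w → IC G (u :: (A ++ [w]))

def ST_SP2 : Prop := ∀ (V : Type) (G : SimpleGraph V) (L : List V) (u w : V),
  IC G L → u ∈ L → w ∈ L → u ≠ w → ¬ G.Adj u w →
    ∃ A B : List V, Link G u A w ∧ Link G u B w ∧ Anti G A B ∧
      ∀ x, x ∈ L ↔ (x = u ∨ x = w ∨ x ∈ A ∨ x ∈ B)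

def ST_SP1 : Prop := ∀ (V : Type) (G : SimpleGraph V) (L : List V) (s t : V),
  IC G L → s ∈ L → t ∈ L → G.Adj s t →
    ∃ Q : List V, Link G t Q s ∧ ∀ x, x ∈ L ↔ (x = s ∨ x = t ∨ x ∈ Q)

/-- shortest path through a connected set -/
def ST_SHO : Prop := ∀ (V : Type) (G : SimpleGraph V) (K : Set V) (a b : V),
  (G.induce K).Preconnected → a ∉ K → b ∉ K → (∃ x ∈ K, G.Adj a x) → (∃ x ∈ K, G.Adj b x) →
    ∃ A : List V, (∀ x ∈ A, x ∈ K) ∧ Link G a A b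

/-- shortest path between two subsets of a connected set -/
def ST_DST : Prop := ∀ (V : Type) (G : SimpleGraph V) (K P Q : Set V),
  (G.induce K).Preconnected → P ⊆ K → Q ⊆ K → P.Nonempty → Q.Nonempty →
  (∀ p ∈ P, ∀ q ∈ Q, p ≠ q ∧ ¬ G.Adj p q) →
    ∃ Y : List V, Y ≠ [] ∧ IP G Y ∧ (∀ y ∈ Y, y ∈ K ∧ y ∉ P ∧ y ∉ Q) ∧
      (∀ y ∈ Y, (∃ p ∈ P, G.Adj y p) ↔ Y.head? = some y) ∧
      (∀ y ∈ Y, (∃ q ∈ Q, G.Adj y q) ↔ Y.getLast? = some y)

/-! ### Geometry and girth -/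

def ST_GEO : Prop := ∀ (V : Type) (G : SimpleGraph V),
  (∀ a b c : V, G.Adj a b → G.Adj b c → ¬ G.Adj a c) → (HellyCircle G ↔ Circ G)

def ST_GIR : Prop := ∀ (V : Type) (G : SimpleGraph V), 5 ≤ G.egirth ↔ Girth5 G

/-! ### Circle graphs: elementary operations -/

def ST_XFER : Prop := ∀ (V : Type) [Finite V] (α : Type) [LinearOrder α] (G : SimpleGraph V)
  (l r : V → α), Model G l r → Circ G

def ST_EMB : Prop := ∀ (V W : Type) (G : SimpleGraph V) (H : SimpleGraph W),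
  (H ↪g G) → Circ G → Circ H

def ST_ROT : Prop := ∀ (V : Type) [Finite V] (G : SimpleGraph V) (v : V), Circ G →
  ∃ l r : V → ℝ, Model G l r ∧ ∀ u, u ≠ v → l v < l u

def ST_GLUE0 : Prop := ∀ (V : Type) [Finite V] (G : SimpleGraph V) (A : Set V),
  (∀ x ∈ A, ∀ y ∈ Aᶜ, ¬ G.Adj x y) → Circ (G.induce A) → Circ (G.induce Aᶜ) → Circ G

def ST_GLUE1 : Prop := ∀ (V : Type) [Finite V] (G : SimpleGraph V) (x : V) (A B : Set V),
  (∀ y, y = x ∨ y ∈ A ∨ y ∈ B) → x ∉ A → x ∉ B → (∀ a ∈ A, ∀ b ∈ B, a ≠ b ∧ ¬ G.Adj a b) →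
  Circ (G.induce (insert x A)) → Circ (G.induce (insert x B)) → Circ G

def ST_PEEL : Prop := ∀ (V : Type) [Finite V] (G : SimpleGraph V) (x : V),
  (∀ a b, G.Adj x a → G.Adj x b → a = b) → Circ (G.induce {x}ᶜ) → Circ G

/-- attaching a pendant path -/
def ST_PS : Prop := ∀ (V : Type) [Finite V] (G : SimpleGraph V) (S : Set V) (A : List V) (u : V),
  IP G A → (∀ x ∈ A, x ∉ S) → (∀ x ∈ A, ∀ y ∈ S, G.Adj x y → (A.head? = some x ∧ y = u)) →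
  Circ (G.induce S) → Circ (G.induce (S ∪ {x | x ∈ A}))

/-- deleting one interior vertex of a path instead of all -/
def ST_PP : Prop := ∀ (V : Type) [Finite V] (G : SimpleGraph V) (u w z : V) (A : List V),
  Link G u A w → (∀ x ∈ A, ∀ y, G.Adj x y → (y ∈ A ∨ y = u ∨ y = w)) → z ∈ A →
  Circ (G.induce {x | x ∉ A}) → Circ (G.induce {z}ᶜ)

def ST_CYC : Prop := ∀ (V : Type) [Finite V] (G : SimpleGraph V) (L : List V),
  IC G L → (∀ x, x ∈ L) → Circ G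

/-! ### Gluing along a vertex -/

def ST_GL : Prop := ∀ (V : Type) [Finite V] (G : SimpleGraph V) (v : V) (ι : Type)
  (κ : V → ι) (pos : V → ℤ) (s e : ι → ℤ) (σ : ι → Bool) (q L R : ι → V → ℝ),
  (∀ a b, G.Adj v a → G.Adj v b → ¬ G.Adj a b) →
  (∀ a b, G.Adj v a → G.Adj v b → pos a = pos b → a = b) →
  (∀ x ∈ Far G v, ∀ y ∈ Far G v, G.Adj x y → κ x = κ y) →
  (∀ n, G.Adj v n → ∀ k ∈ Far G v, G.Adj n k → s (κ k) ≤ pos n ∧ pos n ≤ e (κ k)) →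
  (∀ i, s i ≤ e i) →
  (∀ i j, i ≠ j → σ i = σ j → e i < s j ∨ e j < s i) →
  (∀ i, Rep G {k | k ∈ Far G v ∧ κ k = i} {n | G.Adj v n ∧ s i ≤ pos n ∧ pos n ≤ e i}
    (q i) (L i) (R i)) →
  (∀ i, ∀ a b, G.Adj v a → G.Adj v b → s i ≤ pos a → pos a ≤ e i → s i ≤ pos b → pos b ≤ e i →
    (q i a < q i b ↔ pos a < pos b)) →
  Circ G

/-- representation of a path -/
def ST_PREP : Prop := ∀ (V : Type) (G : SimpleGraph V) (a b : V) (K : List V),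
  Link G a K b → ¬ G.Adj a b → a ≠ b →
    ∃ q L R : V → ℝ, Rep G {x | x ∈ K} {a, b} q L R ∧ q a < q b

/-- representation of a path with attachments at one end only -/
def ST_PREP1 : Prop := ∀ (V : Type) (G : SimpleGraph V) (a : V) (K : List V),
  IP G K → a ∉ K → (∀ x ∈ K, G.Adj a x → K.head? = some x) →
    ∃ q L R : V → ℝ, Rep G {x | x ∈ K} {a} q L R

def ST_TH1 : Prop := ∀ (V : Type) [Finite V] (G : SimpleGraph V) (u w : V) (A B : List V),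
  Girth5 G → G.Adj u w → Link G u A w → Link G u B w → Anti G A B →
  (∀ x, x = u ∨ x = w ∨ x ∈ A ∨ x ∈ B) → Circ G

def ST_TH2 : Prop := ∀ (V : Type) [Finite V] (G : SimpleGraph V) (u w y : V) (A B : List V),
  Girth5 G → G.Adj y u → G.Adj y w → u ≠ w → Link G u A w → Link G u B w → Anti G A B →
  Anti G [y] A → Anti G [y] B → (∀ x, x = u ∨ x = w ∨ x = y ∨ x ∈ A ∨ x ∈ B) → Circ G

def ST_FAN : Prop := ∀ (V : Type) [Finite V] (G : SimpleGraph V) (h : V) (L : List V),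
  Girth5 G → IP G L → h ∉ L → (∀ x, x = h ∨ x ∈ L) → Circ G

/-! ### Combinatorics of positions -/

def ST_LAM : Prop := ∀ (N : Type) [Finite N] (H : SimpleGraph N), H.Connected →
  (∀ a b c d, H.Adj a b → H.Adj a c → H.Adj a d → (b = c ∨ c = d ∨ b = d)) →
    (∃ pos : N → ℤ, Function.Injective pos ∧
      ∀ a b, H.Adj a b ↔ (pos b = pos a + 1 ∨ pos a = pos b + 1)) ∨
    (∃ m : ℕ, 3 ≤ m ∧ ∃ z : ZMod m → N, Function.Bijective z ∧
      ∀ i j, H.Adj (z i) (z j) ↔ (j = i + 1 ∨ i = j + 1))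

def ST_INTV : Prop := ∀ (N : Type) (T : Set N) (q : N → ℝ) (pos : N → ℤ), T.Finite →
  Set.InjOn q T → Set.InjOn pos T →
  (∀ a ∈ T, ∀ b ∈ T, a ≠ b → (∀ n ∈ T, ¬ ((q a < q n ∧ q n < q b) ∨ (q b < q n ∧ q n < q a))) →
    (pos b = pos a + 1 ∨ pos a = pos b + 1)) →
  ((∀ a ∈ T, ∀ b ∈ T, (q a < q b ↔ pos a < pos b)) ∨
    (∀ a ∈ T, ∀ b ∈ T, (q a < q b ↔ pos b < pos a))) ∧
  (∀ a ∈ T, ∀ b ∈ T, ∀ m : ℤ, pos a ≤ m → m ≤ pos b → ∃ n ∈ T, pos n = m)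

def ST_SID : Prop := ∀ (ι : Type) [Finite ι] (s e : ι → ℤ), (∀ i, s i ≤ e i) →
  (∀ i j k, i ≠ j → i ≠ k → j ≠ k → ∀ m : ℤ, ¬ (s i ≤ m ∧ m ≤ e i ∧ s j ≤ m ∧ m ≤ e j ∧
    s k ≤ m ∧ m ≤ e k)) →
  ∃ σ : ι → Bool, ∀ i j, i ≠ j → σ i = σ j → e i < s j ∨ e j < s i

/-! ### Local systems -/

def ST_REP : Prop := ∀ (V : Type) [Finite V] (G : SimpleGraph V) (v : V) (K N : Set V),
  K ⊆ Far G v → (G.induce K).Preconnected → (∀ n ∈ N, G.Adj v n) →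
  (∀ a ∈ N, ∀ b ∈ N, ¬ G.Adj a b) → Circ (G.induce (insert v (K ∪ N))) →
    ∃ q L R : V → ℝ, Rep G K N q L R

def ST_PTH : Prop := ∀ (V : Type) (G : SimpleGraph V) (v : V) (K : Set V)
  (q L R : V → ℝ), Girth5 G → K ⊆ Far G v → (G.induce K).Preconnected →
  Rep G K (Att G v K) q L R → ∀ a ∈ Att G v K, ∀ b ∈ Att G v K, a ≠ b →
    ∃ A : List V, (∀ x ∈ A, x ∈ K) ∧ Link G a A b ∧
      ∀ n, G.Adj v n → n ≠ a → n ≠ b →
        ((∃ x ∈ A, G.Adj n x) ↔ (n ∈ Att G v K ∧ Btw q a n b))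

/-- the local system at `v` exists -/
def ST_LOC : Prop := ∀ (V : Type) [Finite V] (G : SimpleGraph V) (v : V),
  Girth5 G → TwoC G → ¬ (G.induce (Far G v)).Preconnected →
  (∀ S : Set V, S ≠ Set.univ → Circ (G.induce S)) →
  ∃ (ι : Type) (_ : Finite ι) (K : ι → Set V) (q L R : ι → V → ℝ),
    (∀ i, Rep G (K i) (Att G v (K i)) (q i) (L i) (R i)) ∧ Loc G v K q ∧
    (∀ x ∈ Far G v, ∃ i, x ∈ K i) ∧
    (∀ i, ∃ a ∈ Att G v (K i), ∃ b ∈ Att G v (K i), a ≠ b) ∧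
    (∀ n, G.Adj v n → ∃ i, n ∈ Att G v (K i)) ∧
    (∀ X : Set V, (∃ n, G.Adj v n ∧ n ∈ X) → (∃ n, G.Adj v n ∧ n ∉ X) →
      ∃ a b, G.Adj v a ∧ G.Adj v b ∧ a ∈ X ∧ b ∉ X ∧ Lam G v K q a b)

def ST_CON1 : Prop := ∀ (V : Type) [Finite V] (G : SimpleGraph V) (v : V) (ι : Type)
  (K : ι → Set V) (q : ι → V → ℝ), Girth5 G → Loc G v K q → ∀ i j k : ι, i ≠ j → i ≠ k → j ≠ k →
  ∀ n, n ∈ Att G v (K i) → n ∈ Att G v (K j) → n ∈ Att G v (K k) →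
  (∃ a ∈ Att G v (K i), a ≠ n) → (∃ a ∈ Att G v (K j), a ≠ n) → (∃ a ∈ Att G v (K k), a ≠ n) →
  HasT G ∨ HasB G ∨ HasE G

def ST_CON2 : Prop := ∀ (V : Type) [Finite V] (G : SimpleGraph V) (v : V) (ι : Type)
  (K : ι → Set V) (q : ι → V → ℝ), Girth5 G → Loc G v K q → ∀ i j : ι, i ≠ j →
  ∀ a b c n, a ≠ b → c ≠ a → c ≠ b → Cons G v (K i) (q i) a n → Cons G v (K i) (q i) n b →
  Cons G v (K j) (q j) n c → HasE G ∨ HasW G

/-- two hubs: `v` has exactly the two neighbours `z1`, `z2` on the cycle formed by the links `A`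
and `B`; `n` is adjacent to `v` and to a vertex of `A`, but to nothing in `B` -/
def ST_HUB : Prop := ∀ (V : Type) (G : SimpleGraph V) (v n z1 z2 : V) (A B : List V),
  Girth5 G → G.Adj v z1 → G.Adj v z2 → z1 ≠ z2 → G.Adj v n → n ≠ z1 → n ≠ z2 →
  Link G z1 A z2 → Link G z1 B z2 → Anti G A B → Anti G [v] A → Anti G [v] B → Anti G [n] B →
  n ∉ A → (∃ x ∈ A, G.Adj n x) → HasW G ∨ HasK G

def ST_LC : Prop := ∀ (V : Type) [Finite V] (G : SimpleGraph V) (v : V) (m : ℕ)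
  (z : ZMod m → V) (A : ZMod m → List V), Girth5 G → Circ G → 3 ≤ m → Function.Injective z →
  (∀ i, G.Adj v (z i)) →
  (∀ i, Ch G (A i) ∧ (∀ x ∈ A i, x ∈ Far G v) ∧ (∃ x ∈ A i, G.Adj (z i) x) ∧
    (∃ x ∈ A i, G.Adj (z (i + 1)) x) ∧ ∀ j, j ≠ i → j ≠ i + 1 → ∀ x ∈ A i, ¬ G.Adj (z j) x) →
  False

def ST_CON3 : Prop := ∀ (V : Type) [Finite V] (G : SimpleGraph V) (v : V) (ι : Type)
  (K : ι → Set V) (q : ι → V → ℝ) (m : ℕ) (z : ZMod m → V), Girth5 G → Loc G v K q →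
  (∀ x : V, Circ (G.induce {x}ᶜ)) → 3 ≤ m → Function.Injective z →
  (∀ n, G.Adj v n ↔ ∃ i, z i = n) →
  (∀ i j, Lam G v K q (z i) (z j) ↔ (j = i + 1 ∨ i = j + 1)) → HasW G ∨ HasK G

def ST_STEP1 : Prop := ∀ (V : Type) [Finite V] (G : SimpleGraph V) (v : V), Girth5 G → ¬ Obs G →
  TwoC G → (∀ S : Set V, S ≠ Set.univ → Circ (G.induce S)) →
  ¬ (G.induce (Far G v)).Preconnected → Circ G

/-! ### All `G - N[v]` connected -/

def ST_CYCEX : Prop := ∀ (V : Type) [Finite V] (G : SimpleGraph V), TwoC G → 3 ≤ Nat.card V →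
  Girth5 G → ∃ L, IC G L

/-- every vertex outside an induced cycle has at most one neighbour on it -/
def OneP {V : Type} (G : SimpleGraph V) : Prop :=
  ∀ L, IC G L → ∀ y, y ∉ L → ∀ a ∈ L, ∀ b ∈ L, G.Adj y a → G.Adj y b → a = b

def ST_EAREX : Prop := ∀ (V : Type) [Finite V] (G : SimpleGraph V) (L : List V),
  TwoC G → OneP G → IC G L → (∃ x, x ∉ L) →
  ∃ (E : List V) (s t : V), s ∈ L ∧ t ∈ L ∧ s ≠ t ∧ Link G s E t ∧ (∀ x ∈ E, x ∉ L) ∧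
    (∀ x ∈ E, ∀ z ∈ L, z ≠ s → z ≠ t → ¬ G.Adj x z)

def ST_BR : Prop := ∀ (V : Type) (G : SimpleGraph V) (u w y : V) (P R : List V),
  Girth5 G → ¬ HasW G → ¬ HasK G → G.Adj y u → G.Adj y w → u ≠ w → Link G u P w → Link G u R w →
  Anti G P R → Anti G [y] P → Anti G [y] R → ¬ (G.induce (Far G y)).Preconnected

def ST_ONE : Prop := ∀ (V : Type) (G : SimpleGraph V), Girth5 G → ¬ HasW G → ¬ HasK G →
  (∀ v, (G.induce (Far G v)).Preconnected) → OneP G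

def ST_EAR : Prop := ∀ (V : Type) (G : SimpleGraph V) (L E : List V) (s t : V), Girth5 G →
  ¬ HasT G → OneP G → IC G L → s ∈ L → t ∈ L → s ≠ t → Link G s E t → (∀ x ∈ E, x ∉ L) →
  (∀ x ∈ E, ∀ z ∈ L, z ≠ s → z ≠ t → ¬ G.Adj x z) → G.Adj s t

/-- the last configuration: two cycles sharing the edge `st` -/
def ST_CC : Prop := ∀ (V : Type) (G : SimpleGraph V) (s t : V) (Q E : List V), Girth5 G →
  ¬ HasT G → ¬ HasW G → ¬ HasK G → OneP G → G.Adj s t → Link G t Q s → Link G s E t →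
  Anti G Q E → ¬ (G.induce (Far G s)).Preconnected

def ST_STEP2 : Prop := ∀ (V : Type) [Finite V] (G : SimpleGraph V), Girth5 G → ¬ Obs G →
  TwoC G → (∀ v, (G.induce (Far G v)).Preconnected) → Circ G

def ST_MAIN : Prop := ∀ (V : Type) [Finite V] (G : SimpleGraph V), Girth5 G → ¬ Obs G → Circ G

/-! ### The obstructions are not circle graphs -/

def ST_BTW : Prop := ∀ (V : Type) [Finite V] (G : SimpleGraph V) (v : V), Girth5 G → Circ G →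
  ∃ p : V → ℝ, (∀ a b, G.Adj v a → G.Adj v b → p a = p b → a = b) ∧
    ∀ (a b c : V) (P : List V), G.Adj v a → G.Adj v b → G.Adj v c → c ≠ a → c ≠ b → Ch G P →
      (∀ x ∈ P, x ∈ Far G v) → (∃ x ∈ P, G.Adj a x) → (∃ x ∈ P, G.Adj b x) →
      (∀ x ∈ P, ¬ G.Adj c x) → ¬ Btw p a c b

def ST_THREE : Prop := ∀ (V : Type) [Finite V] (G : SimpleGraph V) (v n a b c : V)
  (A B C : List V), Girth5 G → Circ G → G.Adj v n → G.Adj v a → G.Adj v b → G.Adj v c →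
  Ch G A → Ch G B → Ch G C → (∀ x ∈ A, x ∈ Far G v) → (∀ x ∈ B, x ∈ Far G v) →
  (∀ x ∈ C, x ∈ Far G v) → (∃ x ∈ A, G.Adj n x) → (∃ x ∈ B, G.Adj n x) → (∃ x ∈ C, G.Adj n x) →
  (∃ x ∈ A, G.Adj a x) → (∃ x ∈ B, G.Adj b x) → (∃ x ∈ C, G.Adj c x) →
  Anti G A B → Anti G A C → Anti G B C → Anti G [a] B → Anti G [a] C → Anti G [b] A →
  Anti G [b] C → Anti G [c] A → Anti G [c] B → False

def ST_NCT : Prop := ∀ (V : Type) [Finite V] (G : SimpleGraph V), Girth5 G → HasT G → ¬ Circ G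
def ST_NCB : Prop := ∀ (V : Type) [Finite V] (G : SimpleGraph V), Girth5 G → HasB G → ¬ Circ G
def ST_NCE : Prop := ∀ (V : Type) [Finite V] (G : SimpleGraph V), Girth5 G → HasE G → ¬ Circ G
def ST_NCW : Prop := ∀ (V : Type) [Finite V] (G : SimpleGraph V), Girth5 G → HasW G → ¬ Circ G
def ST_NCK : Prop := ∀ (V : Type) [Finite V] (G : SimpleGraph V), Girth5 G → HasK G → ¬ Circ G

/-! ### Reduction to the short list -/

def ST_KPERM : Prop := ∀ (V : Type) (G : SimpleGraph V) (x : Fin 4 → V)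
  (A : Fin 4 → Fin 4 → List V) (τ : Equiv.Perm (Fin 4)), KSys G x A →
  KSys G (fun i => x (τ i)) (fun i j => A (τ i) (τ j))

/-- deleting the path from `x i` to `x j` leaves a theta -/
def ST_KT : Prop := ∀ (V : Type) (G : SimpleGraph V) (x : Fin 4 → V)
  (A : Fin 4 → Fin 4 → List V) (i j k l : Fin 4), KSys G x A → i ≠ j → i ≠ k → i ≠ l → j ≠ k →
  j ≠ l → k ≠ l → A i j ≠ [] → 2 ≤ (A k l).length → (A k i ≠ [] ∨ A i l ≠ []) →
  (A k j ≠ [] ∨ A j l ≠ []) → HasT G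

def ST_KRED : Prop := ∀ (V : Type) (G : SimpleGraph V), Girth5 G → HasK G →
  HasT G ∨ HasW G ∨ HasK5 G ∨ HasK6 G ∨ HasK7 G

def ST_K567 : Prop := ∀ (V : Type) (G : SimpleGraph V), (HasK5 G ∨ HasK6 G ∨ HasK7 G) → HasK G

/-- if no proper induced subgraph contains the obstruction, it is the whole graph -/
def ST_FUT : Prop := ∀ (V : Type) (G : SimpleGraph V), HasT G →
  (∀ S : Set V, S ≠ Set.univ → ¬ HasT (G.induce S)) → FullT G
def ST_FUB : Prop := ∀ (V : Type) (G : SimpleGraph V), HasB G →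
  (∀ S : Set V, S ≠ Set.univ → ¬ HasB (G.induce S)) → FullB G
def ST_FUE : Prop := ∀ (V : Type) (G : SimpleGraph V), HasE G →
  (∀ S : Set V, S ≠ Set.univ → ¬ HasE (G.induce S)) → FullE G
def ST_FUW : Prop := ∀ (V : Type) (G : SimpleGraph V), HasW G →
  (∀ S : Set V, S ≠ Set.univ → ¬ HasW (G.induce S)) → FullW G
def ST_FUK : Prop := ∀ (V : Type) (G : SimpleGraph V)
  (m : Fin 4 → Fin 4 → ℕ), (∃ x A, KSys G x A ∧ ∀ i j, i ≠ j → (A i j).length = m i j) →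
  (∀ S : Set V, S ≠ Set.univ → ¬ ∃ x A, KSys (G.induce S) x A ∧
    ∀ i j, i ≠ j → (A i j).length = m i j) →
  FullK G (fun A => ∀ i j, i ≠ j → (A i j).length = m i j)

/-! ### Isomorphisms with the explicit graphs -/

def ST_IST : Prop := ∀ (V : Type) (G : SimpleGraph V),
  FullT G ↔ ∃ a b c, 3 ≤ a ∧ 3 ≤ b ∧ 3 ≤ c ∧ Nonempty (G ≃g (thetaP a b c).graph)
def ST_ISB : Prop := ∀ (V : Type) (G : SimpleGraph V),
  FullB G ↔ ∃ a b c, 4 ≤ a ∧ 4 ≤ b ∧ 4 ≤ c ∧ Nonempty (G ≃g (bookP a b c).graph)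
def ST_ISE : Prop := ∀ (V : Type) (G : SimpleGraph V),
  FullE G ↔ ∃ a b c, 4 ≤ a ∧ 3 ≤ b ∧ 3 ≤ c ∧ Nonempty (G ≃g (earP a b c).graph)
def ST_ISW : Prop := ∀ (V : Type) (G : SimpleGraph V), Girth5 G →
  (FullW G ↔ ∃ n, ∃ S : Set (ZMod n), 3 ≤ n ∧ 3 ≤ S.ncard ∧ (∀ i ∈ S, i + 1 ∉ S ∧ i + 2 ∉ S) ∧
    Nonempty (G ≃g wheelG n S))
/-- `l 0, …, l 5` are the numbers of edges of the paths `01, 02, 03, 12, 13, 23` -/
def ST_ISK : Prop := ∀ (V : Type) (G : SimpleGraph V) (l : Fin 6 → ℕ), (∀ i, 1 ≤ l i) →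
  ((FullK G (fun A => (A 0 1).length + 1 = l 0 ∧ (A 0 2).length + 1 = l 1 ∧
    (A 0 3).length + 1 = l 2 ∧ (A 1 2).length + 1 = l 3 ∧ (A 1 3).length + 1 = l 4 ∧
    (A 2 3).length + 1 = l 5)) ↔ Nonempty (G ≃g (k4P l).graph))

/-! ### Minimality -/

def ST_MT : Prop := ∀ (V : Type) [Finite V] (G : SimpleGraph V), Girth5 G → FullT G →
  ∀ x : V, Circ (G.induce {x}ᶜ)
def ST_MB : Prop := ∀ (V : Type) [Finite V] (G : SimpleGraph V), Girth5 G → FullB G →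
  ∀ x : V, Circ (G.induce {x}ᶜ)
def ST_ME : Prop := ∀ (V : Type) [Finite V] (G : SimpleGraph V), Girth5 G → FullE G →
  ∀ x : V, Circ (G.induce {x}ᶜ)
def ST_MW : Prop := ∀ (V : Type) [Finite V] (G : SimpleGraph V), Girth5 G → FullW G →
  ∀ x : V, Circ (G.induce {x}ᶜ)

/-- deleting a nonempty path leaves a theta with a path of length at most two -/
def Short {V : Type} (A : Fin 4 → Fin 4 → List V) : Prop :=
  ∀ i j k l : Fin 4, i ≠ j → i ≠ k → i ≠ l → j ≠ k → j ≠ l → k ≠ l → A i j ≠ [] →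
    ((A k l).length ≤ 1 ∨ (A k i = [] ∧ A i l = []) ∨ (A k j = [] ∧ A j l = []))

def ST_MK1 : Prop := ∀ (V : Type) [Finite V] (G : SimpleGraph V) (x : Fin 4 → V)
  (A : Fin 4 → Fin 4 → List V), Girth5 G → KSys G x A → Short A →
  (∀ v, (∃ i, v = x i) ∨ ∃ i j, i ≠ j ∧ v ∈ A i j) →
  ∀ i j, i ≠ j → A i j ≠ [] → Circ (G.induce {v | v ∉ A i j})

def ST_MK2 : Prop := ∀ (V : Type) [Finite V] (G : SimpleGraph V) (x : Fin 4 → V)
  (A : Fin 4 → Fin 4 → List V), Girth5 G → KSys G x A →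
  (∀ v, (∃ i, v = x i) ∨ ∃ i j, i ≠ j ∧ v ∈ A i j) → ∀ i, Circ (G.induce {x i}ᶜ)

def ST_MK : Prop := ∀ (V : Type) [Finite V] (G : SimpleGraph V) (x : Fin 4 → V)
  (A : Fin 4 → Fin 4 → List V), Girth5 G → KSys G x A → Short A →
  (∀ v, (∃ i, v = x i) ∨ ∃ i j, i ≠ j ∧ v ∈ A i j) → ∀ v : V, Circ (G.induce {v}ᶜ)

/-! ### The result -/

def ST_FWD : Prop := ∀ (V : Type) [Finite V] (G : SimpleGraph V), Girth5 G → ¬ Circ G →
  (∀ S : Set V, S ≠ Set.univ → Circ (G.induce S)) → InList G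

def ST_BWD : Prop := ∀ (V : Type) [Finite V] (G : SimpleGraph V), Girth5 G → InList G →
  (¬ Circ G ∧ ∀ S : Set V, S ≠ Set.univ → Circ (G.induce S))

def ST_RESULT : Prop := ∀ (V : Type) [Finite V] (G : SimpleGraph V), 5 ≤ G.egirth →
  (MinForb G ↔ InList G) ∧ (HellyCircle G ↔ ∀ S : Set V, ¬ InList (G.induce S))

end Pool.Agent.Helper64.HG
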