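import Pool.Agent.Helper64.HG.Pub

/-! Minimal forbidden induced subgraphs of girth at least five for Helly circle graphs
(MP_866009_co): definitions used in the proof. -/

set_option autoImplicit false

namespace Pool.Agent.Helper64.HG

variable {V : Type}

/-! ### Combinatorial models -/

/-- no triangle and no cycle of length four -/
def Girth5 (G : SimpleGraph V) : Prop :=
  (∀ a b c : V, G.Adj a b → G.Adj b c → ¬ G.Adj a c) ∧
  (∀ a b c d : V, a ≠ c → b ≠ d → G.Adj a b → G.Adj b c → G.Adj c d → ¬ G.Adj d a)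

/-- the intervals of `u` and `v` overlap -/
def Ovl {α : Type} [LinearOrder α] (l r : V → α) (u v : V) : Prop :=
  (l u < l v ∧ l v < r u ∧ r u < r v) ∨ (l v < l u ∧ l u < r v ∧ r v < r u)

/-- an interval overlap model of `G` -/
structure Model {α : Type} [LinearOrder α] (G : SimpleGraph V) (l r : V → α) : Prop where
  lt : ∀ v, l v < r v
  injl : Function.Injective l
  injr : Function.Injective r
  ne : ∀ u v, l u ≠ r v
  adj : ∀ u v, G.Adj u v ↔ Ovl l r u v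

/-- `G` is a circle graph (combinatorial form) -/
def Circ (G : SimpleGraph V) : Prop := ∃ l r : V → ℝ, Model G l r

/-! ### Lists as paths and cycles -/

/-- induced path -/
def IP (G : SimpleGraph V) (L : List V) : Prop :=
  L.Nodup ∧ ∀ (i j : ℕ) (hi : i < L.length) (hj : j < L.length), i < j →
    (G.Adj L[i] L[j] ↔ j = i + 1)

/-- no common element and no edge between two lists -/
def Anti (G : SimpleGraph V) (A B : List V) : Prop := ∀ a ∈ A, ∀ b ∈ B, a ≠ b ∧ ¬ G.Adj a b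

/-- `A` is the nonempty interior of a path from `u` to `w`: `A` is an induced path, `u` is adjacent
to the first vertex of `A` only and `w` to the last vertex of `A` only (nothing is said about
`u` and `w` themselves) -/
def Link (G : SimpleGraph V) (u : V) (A : List V) (w : V) : Prop :=
  A ≠ [] ∧ IP G A ∧ u ∉ A ∧ w ∉ A ∧ (∀ x ∈ A, G.Adj u x ↔ A.head? = some x) ∧
    (∀ x ∈ A, G.Adj w x ↔ A.getLast? = some x)

/-- induced cycle -/
def IC (G : SimpleGraph V) (L : List V) : Prop :=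
  3 ≤ L.length ∧ L.Nodup ∧ ∀ (i j : ℕ) (hi : i < L.length) (hj : j < L.length), i < j →
    (G.Adj L[i] L[j] ↔ (j = i + 1 ∨ (i = 0 ∧ j + 1 = L.length)))

/-! ### The obstructions -/

/-- theta -/
structure TSys (G : SimpleGraph V) (u w : V) (A B C : List V) : Prop where
  ne : u ≠ w
  nadj : ¬ G.Adj u w
  linkA : Link G u A w
  linkB : Link G u B w
  linkC : Link G u C w
  AB : Anti G A B
  AC : Anti G A C
  BC : Anti G B C
  lA : 2 ≤ A.length
  lB : 2 ≤ B.length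
  lC : 2 ≤ C.length

/-- an edge and three paths -/
structure BSys (G : SimpleGraph V) (u w : V) (A B C : List V) : Prop where
  adj : G.Adj u w
  linkA : Link G u A w
  linkB : Link G u B w
  linkC : Link G u C w
  AB : Anti G A B
  AC : Anti G A C
  BC : Anti G B C
  lA : 3 ≤ A.length
  lB : 3 ≤ B.length
  lC : 3 ≤ C.length

/-- the ear configuration -/
structure ESys (G : SimpleGraph V) (x0 x1 x2 : V) (F B C : List V) : Prop where
  adj01 : G.Adj x0 x1
  adj02 : G.Adj x0 x2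
  ne12 : x1 ≠ x2
  nadj12 : ¬ G.Adj x1 x2
  linkF : Link G x0 F x1
  linkB : Link G x1 B x2
  linkC : Link G x1 C x2
  FB : Anti G F B
  FC : Anti G F C
  BC : Anti G B C
  x2F : Anti G [x2] F
  x0B : Anti G [x0] B
  x0C : Anti G [x0] C
  lF : 3 ≤ F.length
  lB : 2 ≤ B.length
  lC : 2 ≤ C.length

/-- wheel: the cycle `L`, the hub `h`, three spokes `a`, `b`, `c` -/
structure WSys (G : SimpleGraph V) (h : V) (L : List V) (a b c : V) : Prop where
  ic : IC G L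
  hL : h ∉ L
  aL : a ∈ L
  bL : b ∈ L
  cL : c ∈ L
  ab : a ≠ b
  ac : a ≠ c
  bc : b ≠ c
  ha : G.Adj h a
  hb : G.Adj h b
  hc : G.Adj h c

/-- subdivided `K₄`; `A i j` is the list of interior vertices of the path from `x i` to `x j` -/
structure KSys (G : SimpleGraph V) (x : Fin 4 → V) (A : Fin 4 → Fin 4 → List V) : Prop where
  inj : Function.Injective x
  rev : ∀ i j, A j i = (A i j).reverse
  edge : ∀ i j, i ≠ j → A i j = [] → G.Adj (x i) (x j)
  nedge : ∀ i j, i ≠ j → A i j ≠ [] → ¬ G.Adj (x i) (x j)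
  link : ∀ i j, i ≠ j → A i j ≠ [] → Link G (x i) (A i j) (x j)
  anti : ∀ i j k l, i ≠ j → k ≠ l → ¬ (i = k ∧ j = l) → ¬ (i = l ∧ j = k) →
    Anti G (A i j) (A k l)
  antix : ∀ i j k, i ≠ j → k ≠ i → k ≠ j → Anti G [x k] (A i j)

/-- no three consecutive edges of length one -/
def NoP4 (A : Fin 4 → Fin 4 → List V) : Prop :=
  ∀ i j k l : Fin 4, i ≠ j → i ≠ k → i ≠ l → j ≠ k → j ≠ l → k ≠ l →
    ¬ (A i j = [] ∧ A j k = [] ∧ A k l = [])

/-- lengths 1, 1, 2, ≥ 3, ≥ 2, ≥ 2 -/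
def Len5 (A : Fin 4 → Fin 4 → List V) : Prop :=
  A 0 1 = [] ∧ A 0 2 = [] ∧ (A 0 3).length = 1 ∧ 2 ≤ (A 1 2).length ∧ 1 ≤ (A 1 3).length ∧
    1 ≤ (A 2 3).length

/-- lengths 1, 2, 2, 2, 2, ≥ 1 -/
def Len6 (A : Fin 4 → Fin 4 → List V) : Prop :=
  A 0 1 = [] ∧ (A 0 2).length = 1 ∧ (A 0 3).length = 1 ∧ (A 1 2).length = 1 ∧
    (A 1 3).length = 1

/-- all lengths 2 -/
def Len7 (A : Fin 4 → Fin 4 → List V) : Prop :=
  ∀ i j, i ≠ j → (A i j).length = 1

def HasT (G : SimpleGraph V) : Prop := ∃ u w A B C, TSys G u w A B C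
def HasB (G : SimpleGraph V) : Prop := ∃ u w A B C, BSys G u w A B C
def HasE (G : SimpleGraph V) : Prop := ∃ x0 x1 x2 F B C, ESys G x0 x1 x2 F B C
def HasW (G : SimpleGraph V) : Prop := ∃ h L a b c, WSys G h L a b c
def HasK (G : SimpleGraph V) : Prop := ∃ x A, KSys G x A ∧ NoP4 A
def HasK5 (G : SimpleGraph V) : Prop := ∃ x A, KSys G x A ∧ Len5 A
def HasK6 (G : SimpleGraph V) : Prop := ∃ x A, KSys G x A ∧ Len6 A
def HasK7 (G : SimpleGraph V) : Prop := ∃ x A, KSys G x A ∧ Len7 A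

/-- `G` contains one of the obstructions -/
def Obs (G : SimpleGraph V) : Prop := HasT G ∨ HasB G ∨ HasE G ∨ HasW G ∨ HasK G

/-- the obstruction is the whole graph -/
def FullT (G : SimpleGraph V) : Prop :=
  ∃ u w A B C, TSys G u w A B C ∧ ∀ x, x = u ∨ x = w ∨ x ∈ A ∨ x ∈ B ∨ x ∈ C
def FullB (G : SimpleGraph V) : Prop :=
  ∃ u w A B C, BSys G u w A B C ∧ ∀ x, x = u ∨ x = w ∨ x ∈ A ∨ x ∈ B ∨ x ∈ C
def FullE (G : SimpleGraph V) : Prop :=
  ∃ x0 x1 x2 F B C, ESys G x0 x1 x2 F B C ∧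
    ∀ x, x = x0 ∨ x = x1 ∨ x = x2 ∨ x ∈ F ∨ x ∈ B ∨ x ∈ C
def FullW (G : SimpleGraph V) : Prop :=
  ∃ h L a b c, WSys G h L a b c ∧ ∀ x, x = h ∨ x ∈ L
def FullK (G : SimpleGraph V) (P : (Fin 4 → Fin 4 → List V) → Prop) : Prop :=
  ∃ x A, KSys G x A ∧ P A ∧ ∀ v, (∃ i, v = x i) ∨ ∃ i j, i ≠ j ∧ v ∈ A i j

/-! ### Local structure at a vertex -/

/-- vertices other than `v` and not adjacent to `v` -/
def Far (G : SimpleGraph V) (v : V) : Set V := {x | x ≠ v ∧ ¬ G.Adj v x}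

/-- neighbours of `v` with a neighbour in `K` -/
def Att (G : SimpleGraph V) (v : V) (K : Set V) : Set V := {n | G.Adj v n ∧ ∃ k ∈ K, G.Adj n k}

/-- `n` lies strictly between `a` and `b` -/
def Btw (q : V → ℝ) (a n b : V) : Prop := (q a < q n ∧ q n < q b) ∨ (q b < q n ∧ q n < q a)

/-- half plane representation of `K` and its attachments `N`: the vertices of `K` are intervals,
those of `N` are points -/
structure Rep (G : SimpleGraph V) (K N : Set V) (q L R : V → ℝ) : Prop where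
  lt : ∀ k ∈ K, L k < R k
  injq : ∀ n ∈ N, ∀ n' ∈ N, q n = q n' → n = n'
  injL : ∀ k ∈ K, ∀ k' ∈ K, L k = L k' → k = k'
  injR : ∀ k ∈ K, ∀ k' ∈ K, R k = R k' → k = k'
  neLR : ∀ k ∈ K, ∀ k' ∈ K, L k ≠ R k'
  neL : ∀ n ∈ N, ∀ k ∈ K, q n ≠ L k
  neR : ∀ n ∈ N, ∀ k ∈ K, q n ≠ R k
  adjK : ∀ k ∈ K, ∀ k' ∈ K, (G.Adj k k' ↔ Ovl L R k k')
  adjN : ∀ n ∈ N, ∀ k ∈ K, (G.Adj n k ↔ L k < q n ∧ q n < R k)

/-- local system at `v`: `K i` are the pieces of `Far G v`, `q i` orders the attachments of `K i` -/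
structure Loc (G : SimpleGraph V) (v : V) {ι : Type} (K : ι → Set V) (q : ι → V → ℝ) : Prop where
  sub : ∀ i, K i ⊆ Far G v
  sep : ∀ i j, i ≠ j → ∀ x ∈ K i, ∀ y ∈ K j, x ≠ y ∧ ¬ G.Adj x y
  inj : ∀ i, ∀ a ∈ Att G v (K i), ∀ b ∈ Att G v (K i), q i a = q i b → a = b
  path : ∀ i, ∀ a ∈ Att G v (K i), ∀ b ∈ Att G v (K i), a ≠ b →
    ∃ A : List V, (∀ x ∈ A, x ∈ K i) ∧ Link G a A b ∧
      ∀ n, G.Adj v n → n ≠ a → n ≠ b →
        ((∃ x ∈ A, G.Adj n x) ↔ (n ∈ Att G v (K i) ∧ Btw (q i) a n b))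

/-- `a` and `b` are consecutive attachments of `K` -/
def Cons (G : SimpleGraph V) (v : V) (K : Set V) (q : V → ℝ) (a b : V) : Prop :=
  a ∈ Att G v K ∧ b ∈ Att G v K ∧ a ≠ b ∧ ∀ n ∈ Att G v K, ¬ Btw q a n b

/-- consecutive for some piece -/
def Lam (G : SimpleGraph V) (v : V) {ι : Type} (K : ι → Set V) (q : ι → V → ℝ) (a b : V) : Prop :=
  ∃ i, Cons G v (K i) (q i) a b

/-- two-connected (small cases allowed) -/
def TwoC (G : SimpleGraph V) : Prop :=
  G.Preconnected ∧ ∀ x : V, (G.induce {x}ᶜ).Preconnected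

end Pool.Agent.Helper64.HG
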