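import Pool.Agent.Helper64.HG.Stmts

set_option autoImplicit false
set_option linter.unnecessarySeqFocus false
set_option linter.unusedTactic false

namespace Pool.Agent.Helper64.HG

theorem bwd_short {V : Type} {A : Fin 4 → Fin 4 → List V}
    (h : ∀ i j k l : Fin 4, i ≠ j → i ≠ k → i ≠ l → j ≠ k → j ≠ l → k ≠ l →
      (A i j).length ≠ 0 → ((A k l).length ≤ 1 ∨ ((A k i).length = 0 ∧ (A i l).length = 0) ∨
        ((A k j).length = 0 ∧ (A j l).length = 0))) : Short A := by
  intro i j k l h1 h2 h3 h4 h5 h6 hne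
  have := h i j k l h1 h2 h3 h4 h5 h6 (fun e => hne (List.length_eq_zero_iff.1 e))
  simpa only [List.length_eq_zero_iff] using this

theorem bwd_sym {V : Type} {G : SimpleGraph V} {x : Fin 4 → V} {A : Fin 4 → Fin 4 → List V}
    (hK : KSys G x A) (i j : Fin 4) : (A j i).length = (A i j).length := by
  rw [hK.rev i j, List.length_reverse]

theorem bwd_short5 {V : Type} {G : SimpleGraph V} {x : Fin 4 → V} {A : Fin 4 → Fin 4 → List V}
    (hK : KSys G x A) (h : Len5 A) : Short A := by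
  obtain ⟨h1, h2, h3, h4, h5, h6⟩ := h
  have e01 : (A 0 1).length = 0 := by rw [h1]; rfl
  have e02 : (A 0 2).length = 0 := by rw [h2]; rfl
  have e10 := bwd_sym hK 0 1
  have e20 := bwd_sym hK 0 2
  have e30 := bwd_sym hK 0 3
  have e21 := bwd_sym hK 1 2
  have e31 := bwd_sym hK 1 3
  have e32 := bwd_sym hK 2 3
  rw [e01] at e10
  rw [e02] at e20
  rw [h3] at e30
  apply bwd_short
  intro i j k l h12 h13 h14 h23 h24 h34 hne
  fin_cases i <;> fin_cases j <;> first | exact absurd rfl h12 | skip <;>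
    fin_cases k <;> first | exact absurd rfl h13 | exact absurd rfl h23 | skip <;>
    fin_cases l <;> first | exact absurd rfl h14 | exact absurd rfl h24 | exact absurd rfl h34 |
      (simp only [Fin.zero_eta, Fin.mk_one, Fin.reduceFinMk] at hne ⊢; omega)

theorem bwd_short6 {V : Type} {G : SimpleGraph V} {x : Fin 4 → V} {A : Fin 4 → Fin 4 → List V}
    (hK : KSys G x A) (h : Len6 A) : Short A := by
  obtain ⟨h1, h2, h3, h4, h5⟩ := h
  have e01 : (A 0 1).length = 0 := by rw [h1]; rfl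
  have e10 := bwd_sym hK 0 1
  have e20 := bwd_sym hK 0 2
  have e30 := bwd_sym hK 0 3
  have e21 := bwd_sym hK 1 2
  have e31 := bwd_sym hK 1 3
  have e32 := bwd_sym hK 2 3
  rw [e01] at e10
  rw [h2] at e20
  rw [h3] at e30
  rw [h4] at e21
  rw [h5] at e31
  apply bwd_short
  intro i j k l h12 h13 h14 h23 h24 h34 hne
  fin_cases i <;> fin_cases j <;> first | exact absurd rfl h12 | skip <;>
    fin_cases k <;> first | exact absurd rfl h13 | exact absurd rfl h23 | skip <;>
    fin_cases l <;> first | exact absurd rfl h14 | exact absurd rfl h24 | exact absurd rfl h34 |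
      (simp only [Fin.zero_eta, Fin.mk_one, Fin.reduceFinMk] at hne ⊢; omega)

theorem bwd_short7 {V : Type} {A : Fin 4 → Fin 4 → List V} (h : Len7 A) : Short A := by
  apply bwd_short
  intro i j k l h12 h13 h14 h23 h24 h34 hne
  left
  rw [h k l h34]

theorem st_BWD (iT : ST_IST) (iB : ST_ISB) (iE : ST_ISE) (iW : ST_ISW) (iK : ST_ISK)
    (nT : ST_NCT) (nB : ST_NCB) (nE : ST_NCE) (nW : ST_NCW) (nK : ST_NCK) (h567 : ST_K567)
    (mT : ST_MT) (mB : ST_MB) (mE : ST_ME) (mW : ST_MW) (mK : ST_MK) (hE : ST_EMB) : ST_BWD := by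
  intro V _ G g5 hin
  have key : (¬ Circ G ∧ ∀ x : V, Circ (G.induce {x}ᶜ)) →
      (¬ Circ G ∧ ∀ S : Set V, S ≠ Set.univ → Circ (G.induce S)) := by
    rintro ⟨h1, h2⟩
    refine ⟨h1, fun S hS => ?_⟩
    obtain ⟨x, hx⟩ := (Set.ne_univ_iff_exists_notMem S).1 hS
    have hsub : S ⊆ ({x}ᶜ : Set V) := by
      intro y hy hyx
      exact hx (by rw [Set.mem_singleton_iff] at hyx; exact hyx ▸ hy)
    refine hE _ _ (G.induce {x}ᶜ) (G.induce S) ?_ (h2 x)
    refine ⟨⟨fun y => ⟨y.1, hsub y.2⟩, ?_⟩, Iff.rfl⟩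
    intro a b hab
    simp only at hab
    have h2 := Subtype.ext_iff.1 hab
    exact Subtype.ext h2
  apply key
  have cK : ∀ (x : Fin 4 → V) (A : Fin 4 → Fin 4 → List V), KSys G x A → HasK G → Short A →
      (∀ v, (∃ i, v = x i) ∨ ∃ i j, i ≠ j ∧ v ∈ A i j) →
      (¬ Circ G ∧ ∀ x : V, Circ (G.induce {x}ᶜ)) :=
    fun x A hK hh hs hcov => ⟨nK V G g5 hh, mK V G x A g5 hK hs hcov⟩
  rcases hin with h | h | h | h | h | h | h
  · have hf := (iT V G).2 h
    refine ⟨nT V G g5 ?_, mT V G g5 hf⟩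
    obtain ⟨u, w, A, B, C, hs, -⟩ := hf
    exact ⟨u, w, A, B, C, hs⟩
  · have hf := (iB V G).2 h
    refine ⟨nB V G g5 ?_, mB V G g5 hf⟩
    obtain ⟨u, w, A, B, C, hs, -⟩ := hf
    exact ⟨u, w, A, B, C, hs⟩
  · have hf := (iE V G).2 h
    refine ⟨nE V G g5 ?_, mE V G g5 hf⟩
    obtain ⟨x0, x1, x2, A, B, C, hs, -⟩ := hf
    exact ⟨x0, x1, x2, A, B, C, hs⟩
  · have hf := (iW V G g5).2 h
    refine ⟨nW V G g5 ?_, mW V G g5 hf⟩
    obtain ⟨u, L, a, b, c, hs, -⟩ := hf
    exact ⟨u, L, a, b, c, hs⟩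
  · obtain ⟨a, b, c, ha, hb, hc, hi⟩ := h
    have hf := (iK V G _ (by intro i; fin_cases i <;> simp <;> omega)).2 hi
    obtain ⟨x, A, hK, hl, hcov⟩ := hf
    simp only [Matrix.cons_val_zero, Matrix.cons_val_one, Matrix.cons_val] at hl
    have h5 : Len5 A := by
      refine ⟨?_, ?_, by omega, by omega, by omega, by omega⟩
      · exact List.length_eq_zero_iff.1 (by omega)
      · exact List.length_eq_zero_iff.1 (by omega)
    exact cK x A hK (h567 V G (Or.inl ⟨x, A, hK, h5⟩)) (bwd_short5 hK h5) hcov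
  · obtain ⟨c, hc, hi⟩ := h
    have hf := (iK V G _ (by intro i; fin_cases i <;> simp <;> omega)).2 hi
    obtain ⟨x, A, hK, hl, hcov⟩ := hf
    simp only [Matrix.cons_val_zero, Matrix.cons_val_one, Matrix.cons_val] at hl
    have h6 : Len6 A := by
      refine ⟨?_, by omega, by omega, by omega, by omega⟩
      exact List.length_eq_zero_iff.1 (by omega)
    exact cK x A hK (h567 V G (Or.inr (Or.inl ⟨x, A, hK, h6⟩))) (bwd_short6 hK h6) hcov
  · have hf := (iK V G _ (by intro i; fin_cases i <;> simp)).2 h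
    obtain ⟨x, A, hK, hl, hcov⟩ := hf
    simp only [Matrix.cons_val_zero, Matrix.cons_val_one, Matrix.cons_val] at hl
    have h7 : Len7 A := by
      have e10 := bwd_sym hK 0 1
      have e20 := bwd_sym hK 0 2
      have e30 := bwd_sym hK 0 3
      have e21 := bwd_sym hK 1 2
      have e31 := bwd_sym hK 1 3
      have e32 := bwd_sym hK 2 3
      intro i j hij
      fin_cases i <;> fin_cases j <;> first | exact absurd rfl hij |
        (simp only [Fin.zero_eta, Fin.mk_one, Fin.reduceFinMk]; omega)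
    exact cK x A hK (h567 V G (Or.inr (Or.inr ⟨x, A, hK, h7⟩))) (bwd_short7 h7) hcov

end Pool.Agent.Helper64.HG
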