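import Pool.Agent.Helper64.HG.Stmts

set_option autoImplicit false

namespace Pool.Agent.Helper64.HG

theorem fwd_girth5_induce {V : Type} {G : SimpleGraph V} (h : Girth5 G) (S : Set V) :
    Girth5 (G.induce S) := by
  constructor
  · intro a b c h1 h2 h3
    exact h.1 a b c h1 h2 h3
  · intro a b c d hac hbd h1 h2 h3 h4
    exact h.2 a b c d (fun e => hac (Subtype.ext e)) (fun e => hbd (Subtype.ext e)) h1 h2 h3 h4

theorem fwd_len5 {V W : Type} {A : Fin 4 → Fin 4 → List V} {B : Fin 4 → Fin 4 → List W}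
    (h : Len5 A) (hl : ∀ i j, i ≠ j → (B i j).length = (A i j).length) : Len5 B := by
  obtain ⟨h1, h2, h3, h4, h5, h6⟩ := h
  refine ⟨?_, ?_, ?_, ?_, ?_, ?_⟩
  · have := hl 0 1 (by decide); rw [h1] at this; exact List.length_eq_zero_iff.1 this
  · have := hl 0 2 (by decide); rw [h2] at this; exact List.length_eq_zero_iff.1 this
  · rw [hl 0 3 (by decide)]; exact h3
  · rw [hl 1 2 (by decide)]; exact h4
  · rw [hl 1 3 (by decide)]; exact h5
  · rw [hl 2 3 (by decide)]; exact h6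

theorem fwd_len6 {V W : Type} {A : Fin 4 → Fin 4 → List V} {B : Fin 4 → Fin 4 → List W}
    (h : Len6 A) (hl : ∀ i j, i ≠ j → (B i j).length = (A i j).length) : Len6 B := by
  obtain ⟨h1, h2, h3, h4, h5⟩ := h
  refine ⟨?_, ?_, ?_, ?_, ?_⟩
  · have := hl 0 1 (by decide); rw [h1] at this; exact List.length_eq_zero_iff.1 this
  · rw [hl 0 2 (by decide)]; exact h2
  · rw [hl 0 3 (by decide)]; exact h3
  · rw [hl 1 2 (by decide)]; exact h4
  · rw [hl 1 3 (by decide)]; exact h5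

theorem fwd_len7 {V W : Type} {A : Fin 4 → Fin 4 → List V} {B : Fin 4 → Fin 4 → List W}
    (h : Len7 A) (hl : ∀ i j, i ≠ j → (B i j).length = (A i j).length) : Len7 B := by
  intro i j hij
  rw [hl i j hij]
  exact h i j hij

theorem st_FWD (hM : ST_MAIN) (hR : ST_KRED) (h567 : ST_K567) (hFT : ST_FUT) (hFB : ST_FUB)
    (hFE : ST_FUE) (hFW : ST_FUW) (hFK : ST_FUK) (nT : ST_NCT) (nB : ST_NCB) (nE : ST_NCE)
    (nW : ST_NCW) (nK : ST_NCK) (iT : ST_IST) (iB : ST_ISB) (iE : ST_ISE) (iW : ST_ISW)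
    (iK : ST_ISK) : ST_FWD := by
  intro V _ G g5 hnc hS
  have gi : ∀ S : Set V, Girth5 (G.induce S) := fwd_girth5_induce g5
  have hobs : Obs G := by
    by_contra h
    exact hnc (hM V G g5 h)
  have cT : HasT G → InList G := by
    intro h
    exact Or.inl ((iT V G).1 (hFT V G h (fun S hS' h' => nT _ _ (gi S) h' (hS S hS'))))
  have cW : HasW G → InList G := by
    intro h
    exact Or.inr (Or.inr (Or.inr (Or.inl
      ((iW V G g5).1 (hFW V G h (fun S hS' h' => nW _ _ (gi S) h' (hS S hS')))))))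
  have cK : ∀ (x : Fin 4 → V) (A : Fin 4 → Fin 4 → List V), KSys G x A →
      (∀ (W : Type) (H : SimpleGraph W) (y : Fin 4 → W) (B : Fin 4 → Fin 4 → List W),
        KSys H y B → (∀ i j, i ≠ j → (B i j).length = (A i j).length) → HasK H) →
      FullK G (fun B => ∀ i j, i ≠ j → (B i j).length = (A i j).length) := by
    intro x A hK hh
    refine hFK V G (fun i j => (A i j).length) ⟨x, A, hK, fun i j _ => rfl⟩ ?_
    rintro S hS' ⟨y, B, hB, hl⟩
    exact nK _ _ (gi S) (hh _ _ y B hB hl) (hS S hS')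
  rcases hobs with h | h | h | h | h
  · exact cT h
  · exact Or.inr (Or.inl ((iB V G).1 (hFB V G h (fun S hS' h' => nB _ _ (gi S) h' (hS S hS')))))
  · exact Or.inr (Or.inr (Or.inl
      ((iE V G).1 (hFE V G h (fun S hS' h' => nE _ _ (gi S) h' (hS S hS'))))))
  · exact cW h
  · rcases hR V G g5 h with h | h | h | h | h
    · exact cT h
    · exact cW h
    · obtain ⟨x, A, hK, hL⟩ := h
      obtain ⟨y, B, hB, hl, hcov⟩ := cK x A hK
        (fun W H y B hB hl => h567 W H (Or.inl ⟨y, B, hB, fwd_len5 hL hl⟩))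
      obtain ⟨h1, h2, h3, h4, h5, h6⟩ := fwd_len5 hL hl
      refine Or.inr (Or.inr (Or.inr (Or.inr (Or.inl ⟨(B 1 2).length + 1, (B 1 3).length + 1,
        (B 2 3).length + 1, by omega, by omega, by omega, ?_⟩))))
      refine (iK V G _ ?_).1 ⟨y, B, hB, ?_, hcov⟩
      · intro i
        fin_cases i <;> simp
      · simp [h1, h2, h3]
    · obtain ⟨x, A, hK, hL⟩ := h
      obtain ⟨y, B, hB, hl, hcov⟩ := cK x A hK
        (fun W H y B hB hl => h567 W H (Or.inr (Or.inl ⟨y, B, hB, fwd_len6 hL hl⟩)))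
      obtain ⟨h1, h2, h3, h4, h5⟩ := fwd_len6 hL hl
      refine Or.inr (Or.inr (Or.inr (Or.inr (Or.inr (Or.inl ⟨(B 2 3).length + 1,
        by omega, ?_⟩)))))
      refine (iK V G _ ?_).1 ⟨y, B, hB, ?_, hcov⟩
      · intro i
        fin_cases i <;> simp
      · simp [h1, h2, h3, h4, h5]
    · obtain ⟨x, A, hK, hL⟩ := h
      obtain ⟨y, B, hB, hl, hcov⟩ := cK x A hK
        (fun W H y B hB hl => h567 W H (Or.inr (Or.inr ⟨y, B, hB, fwd_len7 hL hl⟩)))
      have h7 := fwd_len7 hL hl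
      refine Or.inr (Or.inr (Or.inr (Or.inr (Or.inr (Or.inr ?_)))))
      refine (iK V G _ ?_).1 ⟨y, B, hB, ?_, hcov⟩
      · intro i
        fin_cases i <;> simp
      · simp [h7 0 1 (by decide), h7 0 2 (by decide), h7 0 3 (by decide), h7 1 2 (by decide),
          h7 1 3 (by decide), h7 2 3 (by decide)]

end Pool.Agent.Helper64.HG
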