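import Pool.Agent.Helper24.HG.MAIN
import Pool.Agent.Helper38.HG.CON3
import Pool.Agent.Helper38.HG.FU
import Pool.Agent.Helper38.HG.Lists
import Pool.Agent.Helper38.HG.PSP
import Pool.Agent.Helper38.HG.SHO
import Pool.Agent.Helper39.HG.GLUE1
import Pool.Agent.Helper39.HG.LAM
import Pool.Agent.Helper39.HG.ONE
import Pool.Agent.Helper39.HG.STEP2
import Pool.Agent.Helper41.HG.KRED
import Pool.Agent.Helper41.HG.LOC
import Pool.Agent.Helper44.HG.NCK
import Pool.Agent.Helper44.HG.PTH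
import Pool.Agent.Helper44.HG.SID
import Pool.Agent.Helper45.HG.MK1
import Pool.Agent.Helper45.HG.PREP
import Pool.Agent.Helper45.HG.ROT
import Pool.Agent.Helper46.HG.CON1
import Pool.Agent.Helper5.HG.CYC
import Pool.Agent.Helper5.HG.ISW
import Pool.Agent.Helper5.HG.KT
import Pool.Agent.Helper5.HG.MB
import Pool.Agent.Helper5.HG.MK2
import Pool.Agent.Helper5.HG.MT
import Pool.Agent.Helper5.HG.REP
import Pool.Agent.Helper53.HG.STEP1
import Pool.Agent.Helper58.HG.NCT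
import Pool.Agent.Helper59.HG.GL
import Pool.Agent.Helper59.HG.TH1
import Pool.Agent.Helper59.HG.TH2
import Pool.Agent.Helper60.HG.DST
import Pool.Agent.Helper60.HG.EAR
import Pool.Agent.Helper60.HG.GEO
import Pool.Agent.Helper60.HG.LC
import Pool.Agent.Helper60.HG.MW
import Pool.Agent.Helper61.HG.GIR
import Pool.Agent.Helper61.HG.XFER
import Pool.Agent.Helper63.HG.HUB
import Pool.Agent.Helper64.HG.BWD
import Pool.Agent.Helper64.HG.FWD
import Pool.Agent.Helper64.HG.RESULT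
import Pool.Agent.Helper7.HG.GLUE0
import Pool.Agent.Helper71.HG.BTW
import Pool.Agent.Helper71.HG.NCB
import Pool.Agent.Helper71.HG.NCW
import Pool.Agent.Helper77.HG.ME
import Pool.Agent.Helper78.HG.BR
import Pool.Agent.Helper81.HG.EAREX
import Pool.Agent.Helper82.HG.ISB
import Pool.Agent.Helper82.HG.ISE
import Pool.Agent.Helper82.HG.ISK
import Pool.Agent.Helper82.HG.IST
import Pool.Agent.Helper83.HG.INTV
import Pool.Agent.Helper83.HG.PEEL
import Pool.Agent.Helper88.HG.CC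
import Pool.Agent.Helper92.HG.CON2
import Pool.Agent.Helper92.HG.FUK
import Pool.Agent.Helper92.HG.MK
import Pool.Agent.Helper92.HG.NCE
import Pool.Agent.Helper94.HG.FAN

/-! Assembly of the modules of project HG. -/

namespace Pool.Agent.Helper64.HG

theorem final : ST_RESULT := by
  have hROT : ST_ROT := st_ROT
  have hREP : ST_REP := st_REP hROT
  have hSHO : ST_SHO := st_SHO
  have hREV : ST_REV := st_REV
  have hPTH : ST_PTH := st_PTH hSHO hREV
  have hLOC : ST_LOC := st_LOC hREP hPTH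
  have hCNS : ST_CNS := st_CNS
  have hSNC : ST_SNC := st_SNC
  have hCON1 : ST_CON1 := st_CON1 hCNS hSNC hREV
  have hSPL : ST_SPL := st_SPL
  have hCY1 : ST_CY1 := st_CY1
  have hCON2 : ST_CON2 := st_CON2 hCNS hSNC hREV hSPL hCY1
  have hBTW : ST_BTW := st_BTW hROT
  have hLC : ST_LC := st_LC hBTW
  have hCY2 : ST_CY2 := st_CY2
  have hCAT : ST_CAT := st_CAT
  have hHUB : ST_HUB := st_HUB hCY2 hSPL hREV hCAT hCNS hSNC
  have hCON3 : ST_CON3 := st_CON3 hLC hHUB hCAT hCY2 hREV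
  have hLAM : ST_LAM := st_LAM
  have hINTV : ST_INTV := st_INTV
  have hSID : ST_SID := st_SID
  have hXFER : ST_XFER := st_XFER
  have hGL : ST_GL := st_GL hXFER
  have hSTEP1 : ST_STEP1 := st_STEP1 hLOC hCON1 hCON2 hCON3 hLAM hINTV hSID hGL
  have hCYCEX : ST_CYCEX := st_CYCEX
  have hEAREX : ST_EAREX := st_EAREX hSHO
  have hDST : ST_DST := st_DST
  have hBR : ST_BR := st_BR hHUB hCY2 hCAT hCNS hSNC hSPL hREV hDST
  have hSP2 : ST_SP2 := st_SP2
  have hONE : ST_ONE := st_ONE hBR hSP2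
  have hEAR : ST_EAR := st_EAR hSP2 hCY2
  have hCC : ST_CC := st_CC hCY1 hCY2 hEAR hHUB hREV hDST
  have hSP1 : ST_SP1 := st_SP1
  have hCYC : ST_CYC := st_CYC hXFER
  have hSTEP2 : ST_STEP2 := st_STEP2 hCYCEX hEAREX hONE hEAR hCC hSP1 hCYC
  have hGLUE0 : ST_GLUE0 := st_GLUE0
  have hGLUE1 : ST_GLUE1 := st_GLUE1 hXFER hROT
  have hMAIN : ST_MAIN := st_MAIN hSTEP1 hSTEP2 hGLUE0 hGLUE1
  have hKT : ST_KT := st_KT hCAT hCNS hSNC
  have hKPERM : ST_KPERM := st_KPERM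
  have hKRED : ST_KRED := st_KRED hKT hKPERM hCY2 hCNS hSNC hCAT hCY1
  have hK567 : ST_K567 := st_K567
  have hFUT : ST_FUT := st_FUT
  have hFUB : ST_FUB := st_FUB
  have hFUE : ST_FUE := st_FUE
  have hFUW : ST_FUW := st_FUW
  have hFUK : ST_FUK := st_FUK
  have hNCT : ST_NCT := st_NCT hBTW hSPL
  have hTHREE : ST_THREE := st_THREE hROT
  have hNCB : ST_NCB := st_NCB hTHREE
  have hNCE : ST_NCE := st_NCE hBTW hSPL hREV
  have hNCW : ST_NCW := st_NCW hBTW
  have hNCK : ST_NCK := st_NCK hBTW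
  have hIST : ST_IST := st_IST
  have hISB : ST_ISB := st_ISB
  have hISE : ST_ISE := st_ISE
  have hISW : ST_ISW := st_ISW
  have hISK : ST_ISK := st_ISK
  have hFWD : ST_FWD := st_FWD hMAIN hKRED hK567 hFUT hFUB hFUE hFUW hFUK hNCT hNCB hNCE hNCW hNCK hIST hISB hISE hISW hISK
  have hPEEL : ST_PEEL := st_PEEL
  have hPS : ST_PS := st_PS hPEEL
  have hPP : ST_PP := st_PP hPS
  have hEMB : ST_EMB := st_EMB
  have hMT : ST_MT := st_MT hCYC hCY2 hPP hPS hEMB hREV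
  have hPREP : ST_PREP := st_PREP
  have hTH1 : ST_TH1 := st_TH1 hGL hPREP hSPL
  have hMB : ST_MB := st_MB hTH1 hPP hPS hEMB hREV
  have hTH2 : ST_TH2 := st_TH2 hGL hPREP
  have hME : ST_ME := st_ME hTH1 hTH2 hCYC hCY1 hCY2 hPP hPS hCNS hREV
  have hFAN : ST_FAN := st_FAN
  have hMW : ST_MW := st_MW hFAN hCYC
  have hMK1 : ST_MK1 := st_MK1 hTH1 hTH2 hCAT hCNS hSNC
  have hMK2 : ST_MK2 := st_MK2 hCYC hCY1 hCY2 hPS hCAT hCNS hSNC hEMB hKPERM
  have hMK : ST_MK := st_MK hMK1 hMK2 hPP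
  have hBWD : ST_BWD := st_BWD hIST hISB hISE hISW hISK hNCT hNCB hNCE hNCW hNCK hK567 hMT hMB hME hMW hMK hEMB
  have hGEO : ST_GEO := st_GEO
  have hGIR : ST_GIR := st_GIR
  exact st_RESULT hFWD hBWD hGEO hGIR hEMB

end Pool.Agent.Helper64.HG
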