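import Mathlib

/-! Minimal forbidden induced subgraphs of girth at least five for Helly circle graphs
(MP_866009_co): the notions in the statement. -/

set_option autoImplicit false

namespace Pool.Agent.Helper64.HG

variable {V : Type}

/-! ### Helly circle graphs -/

/-- A chord model of `G`: every vertex `v` gets the chord of the unit circle of the complex plane
with endpoints `a v` and `b v`; all `2|V|` endpoints are distinct, and two distinct vertices are
adjacent exactly when their chords intersect. -/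
structure ChordModel (G : SimpleGraph V) where
  a : V → ℂ
  b : V → ℂ
  norm_a : ∀ v, ‖a v‖ = 1
  norm_b : ∀ v, ‖b v‖ = 1
  distinct : Function.Injective (Sum.elim a b)
  adj : ∀ u v, u ≠ v →
    (G.Adj u v ↔ (segment ℝ (a u) (b u) ∩ segment ℝ (a v) (b v)).Nonempty)

/-- A chord model is Helly if every family of pairwise intersecting chords has a common point. -/
def ChordModel.Helly {G : SimpleGraph V} (M : ChordModel G) : Prop :=
  ∀ S : Set V,
    (∀ u ∈ S, ∀ v ∈ S, (segment ℝ (M.a u) (M.b u) ∩ segment ℝ (M.a v) (M.b v)).Nonempty) →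
    (⋂ v ∈ S, segment ℝ (M.a v) (M.b v)).Nonempty

/-- `G` is a Helly circle graph. -/
def HellyCircle (G : SimpleGraph V) : Prop := ∃ M : ChordModel G, M.Helly

/-- `G` is a minimal forbidden induced subgraph for the class of Helly circle graphs. -/
def MinForb (G : SimpleGraph V) : Prop :=
  ¬ HellyCircle G ∧ ∀ S : Set V, S ≠ Set.univ → HellyCircle (G.induce S)

/-! ### The graphs in the list: subdivisions of multigraphs -/

/-- A multigraph with vertices `0, …, n-1` and edges `0, …, m-1`; the edge `e` joins `src e` and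
`dst e` and is to be replaced by a path with `len e` edges. -/
structure Pat where
  n : ℕ
  m : ℕ
  src : Fin m → Fin n
  dst : Fin m → Fin n
  len : Fin m → ℕ

/-- vertices of the subdivided multigraph: the original vertices and, for every edge `e`,
`len e - 1` further vertices -/
abbrev Pat.Vert (P : Pat) : Type := Fin P.n ⊕ (Σ e : Fin P.m, Fin (P.len e - 1))

/-- the `i`-th vertex (`0 ≤ i ≤ len e`) of the path that replaces the edge `e` -/
def Pat.pt (P : Pat) (e : Fin P.m) (i : ℕ) : P.Vert :=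
  if i = 0 then Sum.inl (P.src e)
  else if h : i - 1 < P.len e - 1 then Sum.inr ⟨e, ⟨i - 1, h⟩⟩
  else Sum.inl (P.dst e)

/-- the subdivided multigraph: consecutive vertices of the paths are adjacent, and nothing else -/
def Pat.graph (P : Pat) : SimpleGraph P.Vert :=
  SimpleGraph.fromRel (fun x y => ∃ e : Fin P.m, ∃ i < P.len e, x = P.pt e i ∧ y = P.pt e (i + 1))

/-- two vertices joined by three paths with `a`, `b`, `c` edges -/
def thetaP (a b c : ℕ) : Pat := ⟨2, 3, ![0, 0, 0], ![1, 1, 1], ![a, b, c]⟩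

/-- two vertices joined by an edge and by three paths with `a`, `b`, `c` edges -/
def bookP (a b c : ℕ) : Pat := ⟨2, 4, ![0, 0, 0, 0], ![1, 1, 1, 1], ![1, a, b, c]⟩

/-- vertices `0, 1, 2`; edges `01` and `02`, a second path from `0` to `1` with `a` edges and two
paths from `1` to `2` with `b` and `c` edges -/
def earP (a b c : ℕ) : Pat := ⟨3, 5, ![0, 0, 0, 1, 1], ![1, 2, 1, 2, 2], ![1, 1, a, b, c]⟩

/-- the subdivided `K₄` with vertices `0, 1, 2, 3`, the edges `01, 02, 03, 12, 13, 23` being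
replaced by paths with `l 0, …, l 5` edges -/
def k4P (l : Fin 6 → ℕ) : Pat := ⟨4, 6, ![0, 0, 0, 1, 1, 2], ![1, 2, 3, 2, 3, 3], l⟩

/-- the cycle with vertex set `ZMod n` and one further vertex `none` adjacent to the vertices in
`S` -/
def wheelG (n : ℕ) (S : Set (ZMod n)) : SimpleGraph (Option (ZMod n)) :=
  SimpleGraph.fromRel (fun x y =>
    (∃ i : ZMod n, x = some i ∧ y = some (i + 1)) ∨ (∃ i ∈ S, x = none ∧ y = some i))

/-- the list -/
def InList (G : SimpleGraph V) : Prop :=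
  (∃ a b c, 3 ≤ a ∧ 3 ≤ b ∧ 3 ≤ c ∧ Nonempty (G ≃g (thetaP a b c).graph)) ∨
  (∃ a b c, 4 ≤ a ∧ 4 ≤ b ∧ 4 ≤ c ∧ Nonempty (G ≃g (bookP a b c).graph)) ∨
  (∃ a b c, 4 ≤ a ∧ 3 ≤ b ∧ 3 ≤ c ∧ Nonempty (G ≃g (earP a b c).graph)) ∨
  (∃ n, ∃ S : Set (ZMod n), 3 ≤ n ∧ 3 ≤ S.ncard ∧ (∀ i ∈ S, i + 1 ∉ S ∧ i + 2 ∉ S) ∧
    Nonempty (G ≃g wheelG n S)) ∨
  (∃ a b c, 3 ≤ a ∧ 2 ≤ b ∧ 2 ≤ c ∧ Nonempty (G ≃g (k4P ![1, 1, 2, a, b, c]).graph)) ∨
  (∃ c, 1 ≤ c ∧ Nonempty (G ≃g (k4P ![1, 2, 2, 2, 2, c]).graph)) ∨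
  Nonempty (G ≃g (k4P ![2, 2, 2, 2, 2, 2]).graph)

end Pool.Agent.Helper64.HG
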