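import Pool.Agent.Helper64.HG.Stmts

set_option autoImplicit false

namespace Pool.Agent.Helper64.HG

theorem result_girth5_induce {V : Type} {G : SimpleGraph V} (h : Girth5 G) (S : Set V) :
    Girth5 (G.induce S) := by
  constructor
  · intro a b c h1 h2 h3
    exact h.1 a b c h1 h2 h3
  · intro a b c d hac hbd h1 h2 h3 h4
    exact h.2 a b c d (fun e => hac (Subtype.ext e)) (fun e => hbd (Subtype.ext e)) h1 h2 h3 h4

theorem st_RESULT (hF : ST_FWD) (hB : ST_BWD) (hG : ST_GEO) (hgi : ST_GIR) (hE : ST_EMB) :
    ST_RESULT := by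
  intro V _ G hg
  have g5 : Girth5 G := (hgi V G).1 hg
  have key : ∀ S : Set V, HellyCircle (G.induce S) ↔ Circ (G.induce S) :=
    fun S => hG _ _ (result_girth5_induce g5 S).1
  have keyG : HellyCircle G ↔ Circ G := hG _ _ g5.1
  constructor
  · constructor
    · rintro ⟨h1, h2⟩
      exact hF V G g5 (fun h => h1 (keyG.2 h)) (fun S hS => (key S).1 (h2 S hS))
    · intro h
      obtain ⟨h1, h2⟩ := hB V G g5 h
      exact ⟨fun h => h1 (keyG.1 h), fun S hS => (key S).2 (h2 S hS)⟩
  · constructor
    · intro hH S hIn
      have hc : Circ (G.induce S) :=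
        hE V S G (G.induce S) (SimpleGraph.Embedding.induce S) (keyG.1 hH)
      exact (hB _ (G.induce S) (result_girth5_induce g5 S) hIn).1 hc
    · intro h
      by_contra hn
      have hnc : ¬ Circ G := fun h => hn (keyG.2 h)
      have hne : ({S : Set V | ¬ Circ (G.induce S)}).Nonempty := by
        refine ⟨Set.univ, ?_⟩
        intro hc
        apply hnc
        refine hE _ V (G.induce Set.univ) G ?_ hc
        exact ⟨⟨fun x => ⟨x, trivial⟩, fun a b hab => congrArg Subtype.val hab⟩, Iff.rfl⟩
      obtain ⟨S, hS, hmin⟩ := (wellFounded_lt (α := Set V)).has_min _ hne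
      apply h S
      refine hF S (G.induce S) (result_girth5_induce g5 S) hS ?_
      intro T hT
      have hlt : (Subtype.val '' T : Set V) < S := by
        constructor
        · rintro _ ⟨x, _, rfl⟩
          exact x.2
        · intro hsub
          apply hT
          ext x
          simp only [Set.mem_univ, iff_true]
          obtain ⟨y, hy, hyx⟩ := hsub x.2
          have : y = x := Subtype.ext hyx
          exact this ▸ hy
      have hc : Circ (G.induce (Subtype.val '' T : Set V)) := by
        by_contra hcon
        exact hmin _ hcon hlt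
      refine hE _ _ (G.induce (Subtype.val '' T : Set V)) ((G.induce S).induce T) ?_ hc
      refine ⟨⟨fun x => ⟨x.1.1, ⟨x.1, x.2, rfl⟩⟩, ?_⟩, Iff.rfl⟩
      intro a b hab
      simp only at hab
      have h2 := Subtype.ext_iff.1 hab
      exact Subtype.ext (Subtype.ext h2)

end Pool.Agent.Helper64.HG
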